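import Pool.Agent.Helper16.NR.Stmts2
import Pool.Agent.Helper13.Hall.Divisor

set_option autoImplicit false

/-! MP_798d7d_nt: few tuples have a further integral point of small abscissa. -/

namespace Pool.Helper16.NR

/-- the index set -/
noncomputable def badQ (m : ℕ) : Finset (ℤ × ℕ × ℕ × ℕ) :=
  (Finset.Icc (-(20000 * (m : ℤ) ^ 2)) (20000 * (m : ℤ) ^ 2)) ×ˢ (Finset.range (m ^ 2)) ×ˢ
    (Finset.range (m ^ 2)) ×ˢ (Finset.Ico m (2 * m))

/-- the value of the cubic -/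
def badM (q : ℤ × ℕ × ℕ × ℕ) : ℤ :=
  (q.1 - (55 * (q.2.1 : ℤ) + 25)) * (q.1 - (55 * (q.2.2.1 : ℤ) + 42)) *
    (q.1 - ((55 * (q.2.2.2 : ℤ)) ^ 2 - (55 * (q.2.1 : ℤ) + 25) - (55 * (q.2.2.1 : ℤ) + 42)))

/-- divisors of an integer, with sign -/
def badD (M : ℤ) : Finset ℤ :=
  (M.natAbs.divisors.image (fun n : ℕ => (n : ℤ))) ∪
    (M.natAbs.divisors.image (fun n : ℕ => -(n : ℤ)))

theorem bad_mem_D {M d : ℤ} (hM : M ≠ 0) (h : d ∣ M) : d ∈ badD M := by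
  have h1 : d.natAbs ∈ M.natAbs.divisors := by
    rw [Nat.mem_divisors]
    exact ⟨Int.natAbs_dvd_natAbs.2 h, Int.natAbs_ne_zero.2 hM⟩
  unfold badD
  rw [Finset.mem_union, Finset.mem_image, Finset.mem_image]
  rcases le_total 0 d with h0 | h0
  · exact Or.inl ⟨d.natAbs, h1, by omega⟩
  · exact Or.inr ⟨d.natAbs, h1, by omega⟩

theorem bad_card_D (M : ℤ) : (badD M).card ≤ 2 * M.natAbs.divisors.card := by
  unfold badD
  refine (Finset.card_union_le _ _).trans ?_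
  have h1 := Finset.card_image_le (s := M.natAbs.divisors) (f := fun n : ℕ => (n : ℤ))
  have h2 := Finset.card_image_le (s := M.natAbs.divisors) (f := fun n : ℕ => -(n : ℤ))
  omega

theorem bad_abs {m : ℕ} (hm : 1 ≤ m) {q : ℤ × ℕ × ℕ × ℕ} (hq : q ∈ badQ m) :
    |badM q| ≤ (50625 * (m : ℤ) ^ 2) ^ 3 := by
  obtain ⟨x, k1, k2, j⟩ := q
  unfold badQ at hq
  simp only [Finset.mem_product, Finset.mem_Icc, Finset.mem_range, Finset.mem_Ico] at hq
  obtain ⟨⟨hx1, hx2⟩, hk1, hk2, hj1, hj2⟩ := hq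
  have hm' : (1 : ℤ) ≤ m := by exact_mod_cast hm
  have hm2 : (1 : ℤ) ≤ (m : ℤ) ^ 2 := one_le_pow₀ hm'
  have hk1' : (k1 : ℤ) + 1 ≤ (m : ℤ) ^ 2 := by exact_mod_cast hk1
  have hk2' : (k2 : ℤ) + 1 ≤ (m : ℤ) ^ 2 := by exact_mod_cast hk2
  have hk10 : (0 : ℤ) ≤ k1 := Int.natCast_nonneg _
  have hk20 : (0 : ℤ) ≤ k2 := Int.natCast_nonneg _
  have hj0 : (0 : ℤ) ≤ j := Int.natCast_nonneg _
  have hj2' : (j : ℤ) ≤ 2 * m := by
    have : j ≤ 2 * m := by omega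
    exact_mod_cast this
  have hjj : (j : ℤ) ^ 2 ≤ 4 * (m : ℤ) ^ 2 := by nlinarith
  have hjj0 : (0 : ℤ) ≤ (j : ℤ) ^ 2 := sq_nonneg _
  have hj3 : (55 * (j : ℤ)) ^ 2 = 3025 * (j : ℤ) ^ 2 := by ring
  unfold badM
  simp only
  rw [abs_mul, abs_mul, hj3]
  have e1 : |x - (55 * (k1 : ℤ) + 25)| ≤ 50625 * (m : ℤ) ^ 2 := by
    rw [abs_le]
    constructor <;> linarith
  have e2 : |x - (55 * (k2 : ℤ) + 42)| ≤ 50625 * (m : ℤ) ^ 2 := by
    rw [abs_le]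
    constructor <;> linarith
  have e3 : |x - (3025 * (j : ℤ) ^ 2 - (55 * (k1 : ℤ) + 25) - (55 * (k2 : ℤ) + 42))| ≤
      50625 * (m : ℤ) ^ 2 := by
    rw [abs_le]
    constructor <;> linarith
  have e4 : (50625 * (m : ℤ) ^ 2) ^ 3 =
      50625 * (m : ℤ) ^ 2 * (50625 * (m : ℤ) ^ 2) * (50625 * (m : ℤ) ^ 2) := by ring
  rw [e4]
  gcongr

theorem bad_card_Q {m : ℕ} (hm : 1 ≤ m) : ((badQ m).card : ℝ) ≤ 40001 * (m : ℝ) ^ 7 := by
  have h1 : (badQ m).card = (40000 * m ^ 2 + 1) * (m ^ 2 * (m ^ 2 * m)) := by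
    unfold badQ
    rw [Finset.card_product, Finset.card_product, Finset.card_product, Finset.card_range,
      Nat.card_Ico, Int.card_Icc]
    have h2 : (20000 * (m : ℤ) ^ 2 + 1 - -(20000 * (m : ℤ) ^ 2)).toNat = 40000 * m ^ 2 + 1 := by
      have h3 : 20000 * (m : ℤ) ^ 2 + 1 - -(20000 * (m : ℤ) ^ 2) =
          ((40000 * m ^ 2 + 1 : ℕ) : ℤ) := by
        push_cast
        ring
      rw [h3, Int.toNat_natCast]
    have h4 : 2 * m - m = m := by omega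
    rw [h2, h4]
  rw [h1]
  have hm' : (1 : ℝ) ≤ m := by exact_mod_cast hm
  have h2 : (1 : ℝ) ≤ (m : ℝ) ^ 2 := one_le_pow₀ hm'
  push_cast
  have h3 : (0 : ℝ) ≤ (m : ℝ) ^ 5 := by positivity
  have h4 : (40000 * (m : ℝ) ^ 2 + 1) * ((m : ℝ) ^ 2 * ((m : ℝ) ^ 2 * m)) =
      (40000 * (m : ℝ) ^ 2 + 1) * (m : ℝ) ^ 5 := by ring
  rw [h4]
  have h5 : (40001 : ℝ) * (m : ℝ) ^ 7 = (40001 * (m : ℝ) ^ 2) * (m : ℝ) ^ 5 := by ring
  rw [h5]
  apply mul_le_mul_of_nonneg_right _ h3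
  linarith

open Classical in
theorem bad_inj {m : ℕ} : ((TT m).filter (Bad m)).card ≤
    ((badQ m).sigma (fun q => badD (badM q))).card := by
  have hch : ∀ t : ℕ × ℕ × ℕ × ℕ, ∃ p : ℤ × ℤ, Bad m t → (|p.1| ≤ 20000 * (m : ℤ) ^ 2 ∧
      p.1 ≠ tx1 t ∧ p.1 ≠ tx2 t ∧ p.1 ≠ tx3 t ∧ p.2 ^ 2 = p.1 ^ 3 + tA t * p.1 + tB t) := by
    intro t
    by_cases h : Bad m t
    · obtain ⟨x, y, h⟩ := h
      exact ⟨(x, y), fun _ => h⟩
    · exact ⟨(0, 0), fun h' => absurd h' h⟩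
  choose p hp using hch
  have hfac : ∀ t, Bad m t → ((p t).2 - (tu t * (p t).1 + tv t)) *
      ((p t).2 + (tu t * (p t).1 + tv t)) = badM ((p t).1, t.1, t.2.1, t.2.2.1) := by
    intro t ht
    obtain ⟨-, -, -, -, h⟩ := hp t ht
    unfold tA tB tx3 tx1 tx2 tu tv at h
    unfold badM tu tv
    simp only
    linear_combination h
  have hne : ∀ t, Bad m t → badM ((p t).1, t.1, t.2.1, t.2.2.1) ≠ 0 := by
    intro t ht
    obtain ⟨-, h1, h2, h3, -⟩ := hp t ht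
    unfold tx3 tx1 tx2 tu at h3
    unfold tx1 at h1
    unfold tx2 at h2
    unfold badM
    simp only
    exact mul_ne_zero (mul_ne_zero (sub_ne_zero.2 h1) (sub_ne_zero.2 h2)) (sub_ne_zero.2 h3)
  apply Finset.card_le_card_of_injOn
    (fun t => (⟨((p t).1, t.1, t.2.1, t.2.2.1), (p t).2 + (tu t * (p t).1 + tv t)⟩ :
      Sigma (fun _ : ℤ × ℕ × ℕ × ℕ => ℤ)))
  · intro t ht
    rw [Finset.mem_coe, Finset.mem_filter] at ht
    obtain ⟨ht1, ht2⟩ := ht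
    rw [Finset.mem_coe, Finset.mem_sigma]
    refine ⟨?_, ?_⟩
    · have h1 := (hp t ht2).1
      rw [abs_le] at h1
      unfold TT at ht1
      simp only [Finset.mem_product, Finset.mem_range, Finset.mem_Ico] at ht1
      unfold badQ
      simp only [Finset.mem_product, Finset.mem_Icc, Finset.mem_range, Finset.mem_Ico]
      exact ⟨h1, ht1.1, ht1.2.1, ht1.2.2.1⟩
    · exact bad_mem_D (hne t ht2) ⟨(p t).2 - (tu t * (p t).1 + tv t), by rw [← hfac t ht2]; ring⟩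
  · intro t ht t' ht' h
    rw [Finset.mem_coe, Finset.mem_filter] at ht ht'
    simp only [Sigma.mk.injEq, Prod.mk.injEq, heq_eq_eq] at h
    obtain ⟨⟨h1, h2, h3, h4⟩, h5⟩ := h
    have f1 := hfac t ht.2
    have f2 := hfac t' ht'.2
    have n1 := hne t ht.2
    have hu : tu t = tu t' := by
      unfold tu
      rw [h4]
    rw [← h1, ← h2, ← h3, ← h4, ← hu] at f2
    rw [← h1, ← hu] at h5
    have hd : (p t).2 + (tu t * (p t).1 + tv t) ≠ 0 := by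
      intro h0
      rw [h0, mul_zero] at f1
      exact n1 f1.symm
    have h6 : (p t).2 - (tu t * (p t).1 + tv t) = (p t').2 - (tu t * (p t).1 + tv t') := by
      apply mul_right_cancel₀ hd
      rw [f1]
      rw [h5, f2]
    have h7 : tv t = tv t' := by linarith
    unfold tv at h7
    have h8 : t.2.2.2 = t'.2.2.2 := by omega
    exact Prod.ext h2 (Prod.ext h3 (Prod.ext h4 h8))

open Classical in
theorem st_BAD : ST_BAD := by
  obtain ⟨C, hC, hdiv⟩ := Pool.Agent.Helper13.Hall.divisor_bound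
    (ε := ((12 : ℕ) : ℝ)⁻¹) (by norm_num)
  refine ⟨40001 * (2 * (C * 15)), ?_⟩
  intro m hm
  have hm' : (1 : ℝ) ≤ m := by exact_mod_cast hm
  have hm0 : (0 : ℝ) < m := by linarith
  have hs0 : 0 ≤ Real.sqrt m := Real.sqrt_nonneg _
  have hq : ∀ q ∈ badQ m, ((badD (badM q)).card : ℝ) ≤ 2 * (C * 15) * Real.sqrt m := by
    intro q hq
    have h1 : ((badD (badM q)).card : ℝ) ≤ 2 * ((badM q).natAbs.divisors.card : ℝ) := by
      exact_mod_cast bad_card_D (badM q)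
    have h2 := hdiv (badM q).natAbs
    have h3 : (((badM q).natAbs : ℕ) : ℝ) ≤ (15 * Real.sqrt m) ^ 12 := by
      have h4 := bad_abs hm hq
      have h5 : ((|badM q| : ℤ) : ℝ) ≤ (50625 * (m : ℝ) ^ 2) ^ 3 := by exact_mod_cast h4
      have h6 : (((badM q).natAbs : ℕ) : ℝ) = ((|badM q| : ℤ) : ℝ) := by
        rw [Int.abs_eq_natAbs]
        rfl
      rw [h6]
      refine h5.trans (le_of_eq ?_)
      have h7 : (15 * Real.sqrt m) ^ 12 = 15 ^ 12 * ((Real.sqrt m) ^ 2) ^ 6 := by ring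
      rw [h7, Real.sq_sqrt hm0.le]
      ring
    have h4 : (((badM q).natAbs : ℕ) : ℝ) ^ (((12 : ℕ) : ℝ)⁻¹) ≤ 15 * Real.sqrt m := by
      have h5 := Real.rpow_le_rpow (Nat.cast_nonneg _) h3
        (by positivity : (0 : ℝ) ≤ ((12 : ℕ) : ℝ)⁻¹)
      rw [Real.pow_rpow_inv_natCast (by positivity) (by norm_num)] at h5
      exact h5
    calc ((badD (badM q)).card : ℝ) ≤ 2 * ((badM q).natAbs.divisors.card : ℝ) := h1
      _ ≤ 2 * (C * (15 * Real.sqrt m)) := by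
        have := mul_le_mul_of_nonneg_left h4 (by linarith : (0 : ℝ) ≤ C)
        linarith
      _ = 2 * (C * 15) * Real.sqrt m := by ring
  have h1 := bad_inj (m := m)
  rw [Finset.card_sigma] at h1
  have h2 : (((TT m).filter (Bad m)).card : ℝ) ≤ ∑ q ∈ badQ m, ((badD (badM q)).card : ℝ) := by
    exact_mod_cast h1
  have h3 : ∑ q ∈ badQ m, ((badD (badM q)).card : ℝ) ≤
      (badQ m).card * (2 * (C * 15) * Real.sqrt m) := by
    refine (Finset.sum_le_sum hq).trans ?_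
    rw [Finset.sum_const, nsmul_eq_mul]
  have h4 : ((badQ m).card : ℝ) * (2 * (C * 15) * Real.sqrt m) ≤
      40001 * (m : ℝ) ^ 7 * (2 * (C * 15) * Real.sqrt m) :=
    mul_le_mul_of_nonneg_right (bad_card_Q hm) (by positivity)
  have h5 : (m : ℝ) ^ (15 / 2 : ℝ) = (m : ℝ) ^ 7 * Real.sqrt m := by
    rw [Real.sqrt_eq_rpow, ← Real.rpow_natCast (m : ℝ) 7, ← Real.rpow_add hm0]
    norm_num
  rw [h5]
  calc (((TT m).filter (Bad m)).card : ℝ) ≤ 40001 * (m : ℝ) ^ 7 * (2 * (C * 15) * Real.sqrt m) :=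
        h2.trans (h3.trans h4)
    _ = 40001 * (2 * (C * 15)) * ((m : ℝ) ^ 7 * Real.sqrt m) := by ring

end Pool.Helper16.NR
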