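import Pool.Agent.Helper16.NR.Stmts

set_option autoImplicit false

/-! MP_798d7d_nt: pairs for which `u ^ 4` divides `y₁² - x₁³`. -/

namespace Pool.Helper16.NR

theorem sv_cop {y : ℤ} {n : ℕ} (hy : Prime y) (hn : 0 < n) (h : (n : ℤ) < y) :
    IsCoprime y (n : ℤ) := by
  rw [hy.coprime_iff_not_dvd]
  intro hd
  have := Int.le_of_dvd (by exact_mod_cast hn) hd
  omega

theorem sv_dist {X Y : ℕ} {P : Finset ℤ} (hP : PH X Y P) {y z : ℤ} (hy : y ∈ P) (hz : z ∈ P) :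
    |(y : ℝ) - (z : ℝ)| ≤ (Y : ℝ) := by
  have h1 := hP.lo y hy
  have h2 := hP.hi y hy
  have h3 := hP.lo z hz
  have h4 := hP.hi z hz
  have h5 : |y - z| ≤ (Y : ℤ) := by
    rw [abs_le]
    constructor <;> omega
  exact_mod_cast h5

theorem st_SV (h1 : ST_SQ) : ST_SV := by
  intro X Y P I1 I2 hP hI u D hu huY hD hdiv
  classical
  have hX := hP.hX
  have hXY := hP.hXY
  have hY0 : (0 : ℝ) ≤ (Y : ℝ) := Nat.cast_nonneg _
  have hX0 : (0 : ℝ) < (X : ℝ) := by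
    have : 0 < X := by omega
    exact_mod_cast this
  have hu0 : (0 : ℝ) < (u : ℝ) := by exact_mod_cast hu
  have hone : ∀ (b : ℕ) (v : ℤ), 0 < b → IsCoprime v (b : ℤ) → ∀ S : Finset ℤ,
      S ⊆ P → (∀ y ∈ S, (b : ℤ) ∣ y ^ 2 - v ^ 2) →
      (S.card : ℝ) ≤ (b.divisors.card : ℝ) * (2 * Y / (b : ℝ) + 1) := by
    intro b v hb hv S hS hd
    have h2 := h1 b 1 hb one_pos v 1 hv isCoprime_one_left S
      (fun y hy => ⟨hd y hy, by rw [Nat.cast_one]; exact one_dvd _⟩) Y hY0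
      (fun y hy z hz => sv_dist hP (hS hy) (hS hz))
    rw [Nat.lcm_one_right, Nat.divisors_one, Finset.card_singleton, Nat.cast_one, mul_one] at h2
    exact h2
  have hA : ∀ x : ℤ, ((P.filter (fun y => (u : ℤ) ^ 4 ∣ y ^ 2 - x ^ 3)).card : ℝ) ≤
      ((u ^ 4).divisors.card : ℝ) * (2 * Y / (u : ℝ) ^ 4 + 1) := by
    intro x
    rcases (P.filter (fun y => (u : ℤ) ^ 4 ∣ y ^ 2 - x ^ 3)).eq_empty_or_nonempty with h0 | ⟨v, hv⟩
    · rw [h0, Finset.card_empty, Nat.cast_zero]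
      positivity
    · rw [Finset.mem_filter] at hv
      have h2 := hP.lo v hv.1
      have h3 : IsCoprime v ((u ^ 4 : ℕ) : ℤ) := by
        rw [Nat.cast_pow]
        exact (sv_cop (hP.pr v hv.1) hu (by omega)).pow_right
      have h4 := hone (u ^ 4) v (by positivity) h3
        (P.filter (fun y => (u : ℤ) ^ 4 ∣ y ^ 2 - x ^ 3)) (Finset.filter_subset _ _) (by
          intro y hy
          rw [Finset.mem_filter] at hy
          have h5 : y ^ 2 - v ^ 2 = (y ^ 2 - x ^ 3) - (v ^ 2 - x ^ 3) := by ring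
          rw [h5, Nat.cast_pow]
          exact dvd_sub hy.2 hv.2)
      rw [Nat.cast_pow] at h4
      exact h4
  have hB : ∀ x1 ∈ I1, ∀ x2 ∈ I2, ∀ y1 ∈ P,
      ((P.filter (fun y => (x1 - x2) ∣ (y1 ^ 2 - y ^ 2))).card : ℝ) ≤ D * (4 * Y / X + 1) := by
    intro x1 hx1 x2 hx2 y1 hy1
    obtain ⟨h2, h3⟩ := hI x1 hx1 x2 hx2
    obtain ⟨m, hm⟩ : ∃ m : ℕ, (m : ℤ) = x1 - x2 := ⟨(x1 - x2).toNat, by omega⟩
    have hm0 : 0 < m := by omega
    have hmX : m ≤ X := by omega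
    have hlo := hP.lo y1 hy1
    have h4 := hone m y1 hm0 (sv_cop (hP.pr y1 hy1) hm0 (by omega))
      (P.filter (fun y => (x1 - x2) ∣ (y1 ^ 2 - y ^ 2))) (Finset.filter_subset _ _) (by
        intro y hy
        rw [Finset.mem_filter] at hy
        rw [hm]
        have h5 : y ^ 2 - y1 ^ 2 = -(y1 ^ 2 - y ^ 2) := by ring
        rw [h5]
        exact (dvd_neg).2 hy.2)
    refine h4.trans ?_
    have hm0' : (0 : ℝ) < (m : ℝ) := by exact_mod_cast hm0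
    have h6 : (X : ℝ) ≤ 2 * (m : ℝ) := by
      have : X ≤ 2 * m := by omega
      exact_mod_cast this
    have h7 : 2 * (Y : ℝ) / m ≤ 4 * Y / X := by
      rw [div_le_div_iff₀ hm0' hX0]
      nlinarith
    apply mul_le_mul (hdiv m hm0 hmX) (by linarith) (by positivity) (by linarith)
  have hcard : (((GP I1 I2 P).filter (fun q => (u : ℤ) ^ 4 ∣ q.2.2.1 ^ 2 - q.1 ^ 3)).card : ℝ) =
      ∑ x1 ∈ I1, ∑ x2 ∈ I2, ∑ y1 ∈ P, ∑ y2 ∈ P,
        (if (x1 - x2) ∣ (y1 ^ 2 - y2 ^ 2) ∧ (u : ℤ) ^ 4 ∣ y1 ^ 2 - x1 ^ 3 then (1 : ℝ) else 0) := by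
    unfold GP
    rw [Finset.filter_filter, Finset.card_filter, Nat.cast_sum, Finset.sum_product]
    refine Finset.sum_congr rfl fun x1 _ => ?_
    rw [Finset.sum_product]
    refine Finset.sum_congr rfl fun x2 _ => ?_
    rw [Finset.sum_product]
    refine Finset.sum_congr rfl fun y1 _ => ?_
    refine Finset.sum_congr rfl fun y2 _ => ?_
    push_cast
    rfl
  rw [hcard]
  have hin : ∀ x1 ∈ I1, ∀ x2 ∈ I2, ∑ y1 ∈ P, ∑ y2 ∈ P,
      (if (x1 - x2) ∣ (y1 ^ 2 - y2 ^ 2) ∧ (u : ℤ) ^ 4 ∣ y1 ^ 2 - x1 ^ 3 then (1 : ℝ) else 0) ≤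
      (((u ^ 4).divisors.card : ℝ) * (2 * Y / (u : ℝ) ^ 4 + 1)) * (D * (4 * Y / X + 1)) := by
    intro x1 hx1 x2 hx2
    have h2 : ∀ y1 ∈ P, ∑ y2 ∈ P,
        (if (x1 - x2) ∣ (y1 ^ 2 - y2 ^ 2) ∧ (u : ℤ) ^ 4 ∣ y1 ^ 2 - x1 ^ 3 then (1 : ℝ) else 0) ≤
        (if (u : ℤ) ^ 4 ∣ y1 ^ 2 - x1 ^ 3 then D * (4 * Y / X + 1) else 0) := by
      intro y1 hy1
      by_cases h3 : (u : ℤ) ^ 4 ∣ y1 ^ 2 - x1 ^ 3
      · simp only [h3, and_true, if_true]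
        rw [← Nat.cast_one, ← Nat.cast_zero (R := ℝ)]
        have h4 := hB x1 hx1 x2 hx2 y1 hy1
        rw [Finset.card_filter] at h4
        push_cast at h4 ⊢
        exact h4
      · simp only [h3, and_false, if_false, Finset.sum_const_zero]
        exact le_rfl
    refine (Finset.sum_le_sum h2).trans ?_
    rw [← Finset.sum_filter, Finset.sum_const, nsmul_eq_mul]
    exact mul_le_mul_of_nonneg_right (hA x1) (by positivity)
  calc ∑ x1 ∈ I1, ∑ x2 ∈ I2, ∑ y1 ∈ P, ∑ y2 ∈ P,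
        (if (x1 - x2) ∣ (y1 ^ 2 - y2 ^ 2) ∧ (u : ℤ) ^ 4 ∣ y1 ^ 2 - x1 ^ 3 then (1 : ℝ) else 0)
      ≤ ∑ x1 ∈ I1, ∑ x2 ∈ I2,
        (((u ^ 4).divisors.card : ℝ) * (2 * Y / (u : ℝ) ^ 4 + 1)) * (D * (4 * Y / X + 1)) :=
        Finset.sum_le_sum fun x1 hx1 => Finset.sum_le_sum fun x2 hx2 => hin x1 hx1 x2 hx2
    _ = I1.card * I2.card * (((u ^ 4).divisors.card : ℝ) * (2 * Y / (u : ℝ) ^ 4 + 1)) *
      (D * (4 * Y / X + 1)) := by
        rw [Finset.sum_const, Finset.sum_const, nsmul_eq_mul, nsmul_eq_mul]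
        ring

end Pool.Helper16.NR
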